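import Pool.Agent.H34.TAM.Stmts

/-!
Row DIC: a sub-tuple.
-/

set_option autoImplicit false

noncomputable section

namespace Pool.TAM

open Pool.CGR Pool.CGS

namespace DICaux

variable {n m : ℕ}

theorem ev_map {A : Type} [Ring A] (x : Fin m → A) (f : Fin n → Fin m) (w : List (Fin n)) :
    ev x (w.map f) = ev (x ∘ f) w := by
  simp [ev, List.map_map]

theorem get_map (f : Fin n → Fin m) (hf : Function.Injective f) (w : List (Fin n)) (k : ℕ)
    (i : Fin n) : (w.map f)[k]? = some (f i) ↔ w[k]? = some i := by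
  rw [List.getElem?_map]
  constructor
  · intro h
    rw [Option.map_eq_some_iff] at h
    obtain ⟨a, ha, hb⟩ := h
    rw [ha, hf hb]
  · intro h
    rw [h]
    rfl

theorem dq_map {A : Type} [CStarAlgebra A] (τ : A →ₗ[ℂ] ℂ) (x : Fin m → A) (f : Fin n → Fin m)
    (hf : Function.Injective f) (i : Fin n) (w : List (Fin n)) :
    dq (fun w => τ (ev x w)) (f i) (w.map f) = dq (fun w => τ (ev (x ∘ f) w)) i w := by
  unfold dq
  rw [List.length_map]
  refine Finset.sum_congr rfl fun k _ => ?_
  simp only [get_map f hf w k i, ← List.map_take, ← List.map_drop, ev_map]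

theorem cg_map {A : Type} [CStarAlgebra A] (x : Fin m → A) (f : Fin n → Fin m)
    (hf : Function.Injective f) (i : Fin n) (w : List (Fin n)) :
    cg x (f i) (w.map f) = cg (x ∘ f) i w := by
  unfold cg
  rw [List.length_map]
  refine Finset.sum_congr rfl fun k _ => ?_
  simp only [get_map f hf w k i, ← List.map_take, ← List.map_drop, ← List.map_append, ev_map]

/-- Renaming of the letters. -/
def F (f : Fin n → Fin m) (P : List (Fin n) →₀ ℂ) : List (Fin m) →₀ ℂ :=
  P.mapDomain (List.map f)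

theorem pe_F {A : Type} [CStarAlgebra A] (x : Fin m → A) (f : Fin n → Fin m)
    (hf : Function.Injective f) (P : List (Fin n) →₀ ℂ) : pe x (F f P) = pe (x ∘ f) P := by
  unfold pe F
  rw [Finsupp.sum_mapDomain_index_inj (List.map_injective_iff.2 hf)]
  simp only [ev_map]

theorem dp_F {A : Type} [CStarAlgebra A] (τ : A →ₗ[ℂ] ℂ) (x : Fin m → A) (f : Fin n → Fin m)
    (hf : Function.Injective f) (i : Fin n) (P : List (Fin n) →₀ ℂ) :
    dp τ x (f i) (F f P) = dp τ (x ∘ f) i P := by
  unfold dp F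
  rw [Finsupp.sum_mapDomain_index_inj (List.map_injective_iff.2 hf)]
  simp only [dq_map τ x f hf]

theorem cp_F {A : Type} [CStarAlgebra A] (x : Fin m → A) (f : Fin n → Fin m)
    (hf : Function.Injective f) (i : Fin n) (P : List (Fin n) →₀ ℂ) :
    cp x (f i) (F f P) = cp (x ∘ f) i P := by
  unfold cp F
  rw [Finsupp.sum_mapDomain_index_inj (List.map_injective_iff.2 hf)]
  simp only [cg_map x f hf]

theorem lt_F (f : Fin n → Fin m) (P : List (Fin n) →₀ ℂ) : Lt (Set.range f) (F f P) := by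
  classical
  intro w hw j hj
  have h1 := Finsupp.mapDomain_support hw
  obtain ⟨v, _, rfl⟩ := Finset.mem_image.1 h1
  obtain ⟨a, _, rfl⟩ := List.mem_map.1 hj
  exact ⟨a, rfl⟩

theorem exists_F (f : Fin n → Fin m) (hf : Function.Injective f) (P : List (Fin m) →₀ ℂ)
    (hP : Lt (Set.range f) P) : ∃ Q : List (Fin n) →₀ ℂ, F f Q = P := by
  have hi := List.map_injective_iff.2 hf
  refine ⟨P.comapDomain (List.map f) hi.injOn, ?_⟩
  apply Finsupp.mapDomain_comapDomain (List.map f) hi
  intro w hw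
  rw [Set.range_list_map]
  exact hP w hw

end DICaux

open DICaux in
theorem dic_thm : DICStmt := by
  intro n m A _ τ x f hf
  constructor
  · intro h ε hε
    obtain ⟨H, hH, h1⟩ := h ε hε
    obtain ⟨H', rfl⟩ := exists_F f hf H hH
    refine ⟨H', fun i P => ?_⟩
    have h2 := h1 (f i) ⟨i, rfl⟩ (F f P) (lt_F f P)
    rw [dp_F τ x f hf, cp_F x f hf, pe_F x f hf] at h2
    exact h2
  · intro h ε hε
    obtain ⟨H', h1⟩ := h ε hε
    refine ⟨F f H', lt_F f H', ?_⟩
    rintro i ⟨j, rfl⟩ P hP
    obtain ⟨P', rfl⟩ := exists_F f hf P hP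
    have h2 := h1 j P'
    rw [dp_F τ x f hf, cp_F x f hf, pe_F x f hf]
    exact h2

end Pool.TAM
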